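import Pool.Agent.Helper40.REC.VHI

/-!
# REC, NBL: a good normal basis   [helper40]
-/

set_option autoImplicit false

open scoped Classical
open NumberField

namespace REC

open Pool.Agent.Helper13.ZL (Pl q HasMean)
open MU (Gal Zb Over CongPow)

namespace NBL40

open VHI40 (sig_smul pow_finrank rot_sum sigma_sum finrank_pos')

variable {F L : Type} [Field F] [NumberField F] [Field L] [NumberField L] [Algebra F L]

/-- integers of `F` and `L` -/
theorem coe_alg (x : 𝓞 F) : algebraMap (𝓞 L) L (algebraMap (𝓞 F) (𝓞 L) x) =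
    algebraMap F L (algebraMap (𝓞 F) F x) := rfl

/-- bounded elements of `F` are bounded in `L` -/
theorem val_le {v : Pl F} {P : Pl L} (h : OvL v P) {a : F} (ha : v.valuation F a ≤ 1) :
    P.valuation L (algebraMap F L a) ≤ 1 := by
  obtain ⟨n, d, hnd⟩ := v.exists_primeCompl_mul_eq_of_integer a ha
  have hd : (d : 𝓞 F) ∉ v.asIdeal := d.2
  have h1 : P.valuation L (algebraMap (𝓞 L) L (algebraMap (𝓞 F) (𝓞 L) (d : 𝓞 F))) = 1 := by
    rw [IsDedekindDomain.HeightOneSpectrum.valuation_eq_one_iff_notMem]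
    exact fun hh => hd ((h _).1 hh)
  have h2 : algebraMap F L a * algebraMap (𝓞 L) L (algebraMap (𝓞 F) (𝓞 L) (d : 𝓞 F)) =
      algebraMap (𝓞 L) L (algebraMap (𝓞 F) (𝓞 L) n) := by
    rw [coe_alg, coe_alg, ← map_mul, hnd]
  have h3 := congrArg (P.valuation L) h2
  rw [map_mul, h1, mul_one] at h3
  rw [h3]
  exact P.valuation_le_one _

/-- denominators prime to `v` -/
theorem den {v : Pl F} {y : L} (hy : ∀ P : Pl L, OvL v P → P.valuation L y ≤ 1) :
    ∃ s : 𝓞 F, s ∉ v.asIdeal ∧ ∃ z : 𝓞 L,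
      algebraMap F L (algebraMap (𝓞 F) F s) * y = algebraMap (𝓞 L) L z := by
  let I : Ideal (𝓞 L) :=
    { carrier := {s | ∃ z : 𝓞 L, algebraMap (𝓞 L) L s * y = algebraMap (𝓞 L) L z}
      add_mem' := by
        rintro a b ⟨z, hz⟩ ⟨w, hw⟩
        refine ⟨z + w, ?_⟩
        rw [map_add, map_add, add_mul, hz, hw]
      zero_mem' := ⟨0, by rw [map_zero, zero_mul]⟩
      smul_mem' := by
        rintro c a ⟨z, hz⟩
        refine ⟨c * z, ?_⟩
        rw [smul_eq_mul, map_mul, map_mul, mul_assoc, hz] }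
  have hI : ∀ s : 𝓞 L, s ∈ I ↔ ∃ z : 𝓞 L,
    algebraMap (𝓞 L) L s * y = algebraMap (𝓞 L) L z := fun _ => Iff.rfl
  by_contra hcon
  push Not at hcon
  have hle : I.comap (algebraMap (𝓞 F) (𝓞 L)) ≤ v.asIdeal := by
    intro s hs
    rw [Ideal.mem_comap, hI] at hs
    obtain ⟨z, hz⟩ := hs
    by_contra hsv
    exact hcon s hsv z hz
  have := v.isPrime
  obtain ⟨Q, hQI, hQ, hQv⟩ := Ideal.exists_ideal_over_prime_of_isIntegral v.asIdeal I hle
  have hQ0 : Q ≠ ⊥ := by
    rintro rfl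
    apply v.ne_bot
    rw [← hQv, eq_bot_iff]
    intro s hs
    rw [Ideal.mem_comap, Ideal.mem_bot] at hs
    rw [Ideal.mem_bot]
    have h1 : algebraMap F L (algebraMap (𝓞 F) F s) = 0 := by
      rw [← coe_alg, hs, map_zero]
    have h2 : algebraMap (𝓞 F) F s = 0 := (map_eq_zero _).1 h1
    exact (FaithfulSMul.algebraMap_eq_zero_iff (𝓞 F) F).1 h2
  let P : Pl L := ⟨Q, hQ, hQ0⟩
  have hP : OvL v P := by
    intro x
    show algebraMap (𝓞 F) (𝓞 L) x ∈ Q ↔ _
    rw [← Ideal.mem_comap, hQv]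
  obtain ⟨n, d, hnd⟩ := P.exists_primeCompl_mul_eq_of_integer y (hy P hP)
  have hd : (d : 𝓞 L) ∉ Q := d.2
  apply hd
  apply hQI
  rw [hI]
  exact ⟨n, by rw [mul_comm]; exact hnd⟩

/-- valuations of a fixed nonzero integer are bounded from below -/
theorem lower {z : 𝓞 L} (hz : z ≠ 0) : ∃ N : ℕ, ∀ P : Pl L,
    WithZero.exp (-(N : ℤ)) ≤ P.valuation L (algebraMap (𝓞 L) L z) := by
  have hfin : {P : Pl L | P.asIdeal ∣ Ideal.span {z}}.Finite := by
    apply Ideal.finite_factors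
    rw [Ne, Ideal.zero_eq_bot, Ideal.span_singleton_eq_bot]
    exact hz
  have hzL : algebraMap (𝓞 L) L z ≠ 0 := by
    intro h
    exact hz ((FaithfulSMul.algebraMap_eq_zero_iff (𝓞 L) L).1 h)
  refine ⟨∑ P ∈ hfin.toFinset,
    (- WithZero.log (P.valuation L (algebraMap (𝓞 L) L z))).toNat, fun P => ?_⟩
  have h0 : P.valuation L (algebraMap (𝓞 L) L z) ≠ 0 := (Valuation.ne_zero_iff _).2 hzL
  by_cases hP : P ∈ hfin.toFinset
  · have h1 := Finset.single_le_sum
      (f := fun P : Pl L => (- WithZero.log (P.valuation L (algebraMap (𝓞 L) L z))).toNat)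
      (fun _ _ => Nat.zero_le _) hP
    rw [← WithZero.exp_log h0, WithZero.exp_le_exp]
    have h2 := Int.self_le_toNat (- WithZero.log (P.valuation L (algebraMap (𝓞 L) L z)))
    have h3 : ((- WithZero.log (P.valuation L (algebraMap (𝓞 L) L z))).toNat : ℤ) ≤
      ((∑ P ∈ hfin.toFinset,
        (- WithZero.log (P.valuation L (algebraMap (𝓞 L) L z))).toNat : ℕ) : ℤ) := by
      exact_mod_cast h1
    linarith
  · have h1 : P.valuation L (algebraMap (𝓞 L) L z) = 1 := by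
      rw [IsDedekindDomain.HeightOneSpectrum.valuation_eq_one_iff_notMem]
      intro hh
      apply hP
      rw [Set.Finite.mem_toFinset]
      show P.asIdeal ∣ Ideal.span {z}
      rw [Ideal.dvd_span_singleton]
      exact hh
    rw [h1, ← WithZero.exp_zero, WithZero.exp_le_exp]
    omega

/-- common denominators -/
theorem mult (K : Type) [Field K] [NumberField K] (s : Finset K) :
    ∃ m : ℤ, m ≠ 0 ∧ ∀ x ∈ s, ∃ z : 𝓞 K, algebraMap (𝓞 K) K z = (m : K) * x := by
  have : Algebra.IsAlgebraic ℤ K :=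
    ⟨fun x => (IsFractionRing.isAlgebraic_iff ℤ ℚ K).2 (.of_finite ℚ x)⟩
  obtain ⟨m, hm, h⟩ := Algebra.IsAlgebraic.exists_integral_multiples ℤ s
  refine ⟨m, hm, fun x hx => ?_⟩
  have h1 := h x hx
  rw [zsmul_eq_mul] at h1
  exact ⟨⟨(m : K) * x, h1⟩, rfl⟩

/-- a nonzero element of all `v` in `B` -/
theorem small (B : Finset (Pl F)) : ∃ p : 𝓞 F, p ≠ 0 ∧ ∀ v ∈ B, p ∈ v.asIdeal := by
  induction B using Finset.induction_on with
  | empty => exact ⟨1, one_ne_zero, fun v hv => absurd hv (Finset.notMem_empty v)⟩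
  | insert v B _ ih =>
    obtain ⟨p, hp, h⟩ := ih
    obtain ⟨r, hr, hr0⟩ := Submodule.exists_mem_ne_zero_of_ne_bot v.ne_bot
    refine ⟨r * p, mul_ne_zero hr0 hp, fun w hw => ?_⟩
    rcases Finset.mem_insert.1 hw with rfl | hw
    · exact Ideal.mul_mem_right _ _ hr
    · exact Ideal.mul_mem_left _ _ (h w hw)

/-- the valuation of an integer is at most one -/
theorem val_int (v : Pl F) {x : F} (h : ∃ z : 𝓞 F, algebraMap (𝓞 F) F z = x) :
    v.valuation F x ≤ 1 := by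
  obtain ⟨z, rfl⟩ := h
  exact v.valuation_le_one z

variable [IsGalois F L]

/-- a normal basis and its coordinates -/
theorem coords (σ : L ≃ₐ[F] L) (hσ : ∀ τ : L ≃ₐ[F] L, ∃ k : ℕ, τ = σ ^ k) :
    ∃ (θ : L) (c : ℕ → L →ₗ[F] F),
      (∀ x : L, x = ∑ i ∈ Finset.range (Module.finrank F L), c i x • (σ ^ i : L ≃ₐ[F] L) θ) ∧
      ∀ (a : ℕ → F) (i : ℕ), i < Module.finrank F L →
        c i (∑ k ∈ Finset.range (Module.finrank F L), a k • (σ ^ k : L ≃ₐ[F] L) θ) = a i := by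
  set n := Module.finrank F L with hn
  have hn0 : 0 < n := finrank_pos'
  have hnn : (σ ^ n : L ≃ₐ[F] L) = 1 := pow_finrank σ
  set θ : L := IsGalois.normalBasis F L 1 with hθ
  have htop : ⊤ ≤ Submodule.span F
      (Set.range (fun i : Fin n => (σ ^ (i : ℕ) : L ≃ₐ[F] L) θ)) := by
    rw [← (IsGalois.normalBasis F L).span_eq, Submodule.span_le]
    rintro _ ⟨τ, rfl⟩
    obtain ⟨k, rfl⟩ := hσ τ
    rw [IsGalois.normalBasis_apply]
    apply Submodule.subset_span
    refine ⟨⟨k % n, Nat.mod_lt _ hn0⟩, ?_⟩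
    show (σ ^ (k % n) : L ≃ₐ[F] L) θ = _
    have h1 : (σ ^ k : L ≃ₐ[F] L) = σ ^ (k % n) := by
      conv_lhs => rw [← Nat.mod_add_div k n, pow_add, pow_mul, hnn, one_pow, mul_one]
    rw [h1]
  let bas := basisOfTopLeSpanOfCardEqFinrank
    (fun i : Fin n => (σ ^ (i : ℕ) : L ≃ₐ[F] L) θ) htop (by simp [hn])
  have hbas : ∀ i : Fin n, bas i = (σ ^ (i : ℕ) : L ≃ₐ[F] L) θ := by
    intro i
    simp [bas]
  refine ⟨θ, fun i => if h : i < n then bas.coord ⟨i, h⟩ else 0, fun x => ?_,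
    fun a i hi => ?_⟩
  · rw [← Fin.sum_univ_eq_sum_range
      (fun i => (if h : i < n then bas.coord ⟨i, h⟩ else 0 : L →ₗ[F] F) x •
        (σ ^ i : L ≃ₐ[F] L) θ)]
    conv_lhs => rw [← bas.sum_repr x]
    refine Finset.sum_congr rfl fun i _ => ?_
    rw [dif_pos i.2, hbas]
    rfl
  · dsimp only
    rw [dif_pos hi, ← Fin.sum_univ_eq_sum_range (fun i => a i • (σ ^ i : L ≃ₐ[F] L) θ),
      map_sum, Finset.sum_eq_single (⟨i, hi⟩ : Fin n)]
    · rw [map_smul, ← hbas, Module.Basis.coord_apply, Module.Basis.repr_self]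
      simp
    · intro j _ hj
      rw [map_smul, ← hbas, Module.Basis.coord_apply, Module.Basis.repr_self]
      simp [Finsupp.single_apply, hj]
    · intro h
      exact absurd (Finset.mem_univ _) h

theorem main (σ : L ≃ₐ[F] L) (hσ : ∀ τ : L ≃ₐ[F] L, ∃ k : ℕ, τ = σ ^ k) (B : Finset (Pl F)) :
    ∃ θ : L, VHI40.NB σ B θ := by
  obtain ⟨θ₀, c, hc, hcu⟩ := coords σ hσ
  set n := Module.finrank F L with hn
  have hn0 : 0 < n := finrank_pos'
  have hnn : (σ ^ n : L ≃ₐ[F] L) = 1 := pow_finrank σ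
  obtain ⟨D₁, hD₁, hD₁'⟩ := mult L
    (Finset.image (fun i : ℕ => (σ ^ i : L ≃ₐ[F] L) θ₀) (Finset.range n))
  obtain ⟨D₂, hD₂, hD₂'⟩ := mult F
    (Finset.image (fun i : ℕ × ℕ × ℕ => c i.2.2 ((σ ^ i.1 : L ≃ₐ[F] L) θ₀ *
      (σ ^ i.2.1 : L ≃ₐ[F] L) θ₀)) (Finset.range n ×ˢ Finset.range n ×ˢ Finset.range n))
  obtain ⟨D₃, hD₃, hD₃'⟩ := mult F
    (Finset.image (fun i : ℕ × Module.Free.ChooseBasisIndex ℤ (𝓞 L) =>
      c i.1 (algebraMap (𝓞 L) L (RingOfIntegers.basis L i.2)))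
        (Finset.range n ×ˢ Finset.univ))
  obtain ⟨p, hp0, hp⟩ := small B
  -- integrality
  have hI₁ : ∀ i < n, ∃ z : 𝓞 L, algebraMap (𝓞 L) L z = (D₁ : L) * (σ ^ i : L ≃ₐ[F] L) θ₀ :=
    fun i hi => hD₁' _ (Finset.mem_image.2 ⟨i, Finset.mem_range.2 hi, rfl⟩)
  have hI₂ : ∀ i < n, ∀ j < n, ∀ m < n, ∃ z : 𝓞 F, algebraMap (𝓞 F) F z =
      (D₂ : F) * c m ((σ ^ i : L ≃ₐ[F] L) θ₀ * (σ ^ j : L ≃ₐ[F] L) θ₀) :=
    fun i hi j hj m hm => hD₂' _ (Finset.mem_image.2 ⟨(i, j, m), by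
      simp [hi, hj, hm], rfl⟩)
  have hI₃ : ∀ i < n, ∀ y : 𝓞 L, ∃ z : 𝓞 F, algebraMap (𝓞 F) F z =
      (D₃ : F) * c i (algebraMap (𝓞 L) L y) := by
    intro i hi y
    have h1 : ∀ k : Module.Free.ChooseBasisIndex ℤ (𝓞 L), ∃ z : 𝓞 F,
        algebraMap (𝓞 F) F z = (D₃ : F) * c i (algebraMap (𝓞 L) L (RingOfIntegers.basis L k)) :=
      fun k => hD₃' _ (Finset.mem_image.2 ⟨(i, k), by simp [hi], rfl⟩)
    choose z hz using h1
    refine ⟨∑ k, ((RingOfIntegers.basis L).repr y k) • z k, ?_⟩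
    conv_rhs => rw [← (RingOfIntegers.basis L).sum_repr y]
    rw [map_sum, map_sum, map_sum, Finset.mul_sum]
    refine Finset.sum_congr rfl fun k _ => ?_
    rw [zsmul_eq_mul, zsmul_eq_mul, map_mul, map_mul, map_intCast, map_intCast, hz]
    have h2 : (((RingOfIntegers.basis L).repr y k : ℤ) : L) *
        algebraMap (𝓞 L) L (RingOfIntegers.basis L k) =
        (((RingOfIntegers.basis L).repr y k : ℤ) : F) •
          algebraMap (𝓞 L) L (RingOfIntegers.basis L k) := by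
      rw [Algebra.smul_def, map_intCast]
    rw [h2, map_smul, smul_eq_mul]
    ring
  -- the scaling factor
  set t : 𝓞 F := (D₁ : 𝓞 F) * (D₂ : 𝓞 F) * p with ht
  have ht0 : t ≠ 0 := by
    rw [ht]
    refine mul_ne_zero (mul_ne_zero ?_ ?_) hp0
    · exact_mod_cast hD₁
    · exact_mod_cast hD₂
  set tF : F := algebraMap (𝓞 F) F t with htF
  have htF' : tF = (D₁ : F) * (D₂ : F) * algebraMap (𝓞 F) F p := by
    rw [htF, ht, map_mul, map_mul, map_intCast, map_intCast]
  have htF0 : tF ≠ 0 := by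
    rw [htF]
    exact fun h => ht0 ((FaithfulSMul.algebraMap_eq_zero_iff (𝓞 F) F).1 h)
  have hθi : ∀ i, (σ ^ i : L ≃ₐ[F] L) (tF • θ₀) = tF • (σ ^ i : L ≃ₐ[F] L) θ₀ :=
    fun i => sig_smul _ _ _
  -- the criterion
  have crit : ∀ (j : ℕ) (x : L), LatB σ B (tF • θ₀) j x ↔
      ∀ i < n, ∀ v ∈ B, v.valuation F (c i x) ≤ v.valuation F tF * WithZero.exp (-(j : ℤ)) := by
    intro j x
    constructor
    · rintro ⟨a, ha, ha'⟩ i hi v hv
      have h1 : x = ∑ k ∈ Finset.range n, (a k * tF) • (σ ^ k : L ≃ₐ[F] L) θ₀ := by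
        rw [ha]
        refine Finset.sum_congr rfl fun k _ => ?_
        rw [hθi, smul_smul]
      rw [h1, hcu _ i hi, map_mul, mul_comm]
      exact mul_le_mul_right (ha' i v hv) _
    · intro h
      refine ⟨fun i => if i < n then tF⁻¹ * c i x else 0, ?_, fun i v hv => ?_⟩
      · conv_lhs => rw [hc x]
        refine Finset.sum_congr rfl fun i hi => ?_
        dsimp only
        rw [if_pos (Finset.mem_range.1 hi), hθi, smul_smul]
        congr 1
        field_simp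
      · dsimp only
        split_ifs with hi
        · rw [map_mul, map_inv₀]
          have h1 := mul_le_mul_right (h i hi v hv) (v.valuation F tF)⁻¹
          rwa [inv_mul_cancel_left₀ ((Valuation.ne_zero_iff _).2 htF0)] at h1
        · rw [map_zero]
          exact bot_le
  refine ⟨tF • θ₀, hσ, ?_, ?_, ?_, ?_, ?_⟩
  · -- span
    intro x
    refine ⟨fun i => tF⁻¹ * c i x, ?_⟩
    conv_lhs => rw [hc x]
    refine Finset.sum_congr rfl fun i _ => ?_
    rw [hθi, smul_smul]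
    congr 1
    field_simp
  · -- products
    intro i₀ j₀ x y hx hy
    rw [crit] at hx hy ⊢
    intro m hm v hv
    have h1 : c m (x * y) = ∑ i ∈ Finset.range n, ∑ j ∈ Finset.range n,
        c i x * (c j y * c m ((σ ^ i : L ≃ₐ[F] L) θ₀ * (σ ^ j : L ≃ₐ[F] L) θ₀)) := by
      conv_lhs => rw [hc x, hc y, Finset.sum_mul_sum, map_sum]
      refine Finset.sum_congr rfl fun i _ => ?_
      rw [map_sum]
      refine Finset.sum_congr rfl fun j _ => ?_
      rw [smul_mul_smul_comm, map_smul, smul_eq_mul]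
      ring
    rw [h1]
    refine Valuation.map_sum_le _ fun i hi => Valuation.map_sum_le _ fun j hj => ?_
    have hi' := Finset.mem_range.1 hi
    have hj' := Finset.mem_range.1 hj
    have h2 : v.valuation F (tF * c m ((σ ^ i : L ≃ₐ[F] L) θ₀ *
        (σ ^ j : L ≃ₐ[F] L) θ₀)) ≤ 1 := by
      apply val_int
      obtain ⟨z, hz⟩ := hI₂ i hi' j hj' m hm
      refine ⟨(D₁ : 𝓞 F) * p * z, ?_⟩
      rw [map_mul, map_mul, map_intCast, hz, htF']
      ring
    rw [map_mul] at h2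
    rw [map_mul, map_mul]
    have h3 := hx i hi' v hv
    have h4 := hy j hj' v hv
    have h5 : (WithZero.exp (-((i₀ + j₀ : ℕ) : ℤ)) : WithZero (Multiplicative ℤ)) =
        WithZero.exp (-(i₀ : ℤ)) * WithZero.exp (-(j₀ : ℤ)) := by
      rw [← WithZero.exp_add]
      congr 1
      push_cast
      ring
    rw [h5]
    calc v.valuation F (c i x) * (v.valuation F (c j y) *
          v.valuation F (c m ((σ ^ i : L ≃ₐ[F] L) θ₀ * (σ ^ j : L ≃ₐ[F] L) θ₀)))
        ≤ (v.valuation F tF * WithZero.exp (-(i₀ : ℤ))) *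
          ((v.valuation F tF * WithZero.exp (-(j₀ : ℤ))) *
          v.valuation F (c m ((σ ^ i : L ≃ₐ[F] L) θ₀ * (σ ^ j : L ≃ₐ[F] L) θ₀))) :=
        mul_le_mul' h3 (mul_le_mul' h4 le_rfl)
      _ = (v.valuation F tF * (WithZero.exp (-(i₀ : ℤ)) * WithZero.exp (-(j₀ : ℤ)))) *
          (v.valuation F tF *
          v.valuation F (c m ((σ ^ i : L ≃ₐ[F] L) θ₀ * (σ ^ j : L ≃ₐ[F] L) θ₀))) := by
        simp only [mul_comm, mul_left_comm, mul_assoc]
      _ ≤ (v.valuation F tF * (WithZero.exp (-(i₀ : ℤ)) * WithZero.exp (-(j₀ : ℤ)))) * 1 :=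
        mul_le_mul' le_rfl h2
      _ = _ := mul_one _
  · -- elements of `F`
    intro j a ha v hv
    rw [crit] at ha
    -- the trace of `θ₀`
    have h1 : σ (∑ i ∈ Finset.range n, (σ ^ i : L ≃ₐ[F] L) θ₀) =
        ∑ i ∈ Finset.range n, (σ ^ i : L ≃ₐ[F] L) θ₀ := by
      have := sigma_sum (σ := σ) (θ := θ₀) (fun _ => (1 : F)) n
      simp only [one_smul] at this
      rw [this]
      have h2 := rot_sum (σ := σ) (θ := θ₀) (fun _ => (1 : F)) hnn hn0
      simpa using h2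
    have h2 : ∀ τ : L ≃ₐ[F] L, τ (∑ i ∈ Finset.range n, (σ ^ i : L ≃ₐ[F] L) θ₀) =
        ∑ i ∈ Finset.range n, (σ ^ i : L ≃ₐ[F] L) θ₀ := by
      intro τ
      obtain ⟨k, rfl⟩ := hσ τ
      induction k with
      | zero => simp
      | succ k ih => rw [pow_succ, AlgEquiv.mul_apply, h1, ih]
    obtain ⟨T, hT⟩ := (IsGalois.mem_range_algebraMap_iff_fixed _).2 h2
    have hT0 : T ≠ 0 := by
      rintro rfl
      rw [map_zero] at hT
      have h3 := hcu (fun _ => (1 : F)) 0 hn0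
      simp only [one_smul] at h3
      rw [← hT, map_zero] at h3
      exact zero_ne_one h3
    have h3 : c 0 (algebraMap F L a) = a * T⁻¹ := by
      have h4 : algebraMap F L a = ∑ i ∈ Finset.range n, (a * T⁻¹) •
          (σ ^ i : L ≃ₐ[F] L) θ₀ := by
        rw [← Finset.smul_sum, ← hT, Algebra.smul_def, ← map_mul]
        congr 1
        field_simp
      rw [h4]
      exact hcu _ 0 hn0
    have h5 := ha 0 hn0 v hv
    rw [h3] at h5
    have h6 : v.valuation F (tF * T) ≤ 1 := by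
      apply val_int
      have h7 : IsIntegral ℤ ((D₁ : F) * T) := by
        rw [← isIntegral_algebraMap_iff (FaithfulSMul.algebraMap_injective F L)]
        rw [map_mul, map_intCast, hT, Finset.mul_sum]
        refine IsIntegral.sum _ fun i hi => ?_
        obtain ⟨z, hz⟩ := hI₁ i (Finset.mem_range.1 hi)
        rw [← hz]
        exact z.2
      obtain ⟨z, hz⟩ : ∃ z : 𝓞 F, algebraMap (𝓞 F) F z = (D₁ : F) * T :=
        ⟨⟨(D₁ : F) * T, h7⟩, rfl⟩
      refine ⟨(D₂ : 𝓞 F) * p * z, ?_⟩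
      rw [map_mul, map_mul, map_intCast, htF', hz]
      ring
    have h8 : a = (a * T⁻¹) * T := by field_simp
    rw [h8, map_mul]
    rw [map_mul] at h6
    calc v.valuation F (a * T⁻¹) * v.valuation F T
        ≤ (v.valuation F tF * WithZero.exp (-(j : ℤ))) * v.valuation F T :=
        mul_le_mul' h5 le_rfl
      _ = WithZero.exp (-(j : ℤ)) * (v.valuation F tF * v.valuation F T) := by
        simp only [mul_comm, mul_left_comm]
      _ ≤ WithZero.exp (-(j : ℤ)) * 1 := mul_le_mul' le_rfl h6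
      _ = _ := mul_one _
  · -- smallness
    intro x hx v hv P hP
    rw [crit] at hx
    rw [hc x]
    refine Valuation.map_sum_lt _ one_ne_zero fun i hi => ?_
    have hi' := Finset.mem_range.1 hi
    have h1 : c i x • (σ ^ i : L ≃ₐ[F] L) θ₀ = algebraMap F L (c i x * tF⁻¹) *
        (algebraMap F L tF * (σ ^ i : L ≃ₐ[F] L) θ₀) := by
      rw [Algebra.smul_def, ← mul_assoc, ← map_mul]
      congr 2
      field_simp
    rw [h1, map_mul]
    have h2 : P.valuation L (algebraMap F L (c i x * tF⁻¹)) ≤ 1 := by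
      apply val_le hP
      rw [map_mul, map_inv₀]
      have h3 := hx i hi' v hv
      rw [Nat.cast_zero, neg_zero, WithZero.exp_zero, mul_one] at h3
      have h4 := mul_le_mul' h3 (le_refl (v.valuation F tF)⁻¹)
      rwa [mul_inv_cancel₀ ((Valuation.ne_zero_iff _).2 htF0)] at h4
    have h3 : P.valuation L (algebraMap F L tF * (σ ^ i : L ≃ₐ[F] L) θ₀) < 1 := by
      obtain ⟨z, hz⟩ := hI₁ i hi'
      have h4 : algebraMap F L tF * (σ ^ i : L ≃ₐ[F] L) θ₀ =
          algebraMap (𝓞 L) L (algebraMap (𝓞 F) (𝓞 L) p) *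
            algebraMap (𝓞 L) L ((D₂ : 𝓞 L) * z) := by
        rw [coe_alg, map_mul, map_intCast, hz, htF', map_mul, map_mul, map_intCast,
          map_intCast]
        ring
      rw [h4, map_mul]
      have h5 : P.valuation L (algebraMap (𝓞 L) L (algebraMap (𝓞 F) (𝓞 L) p)) < 1 := by
        rw [IsDedekindDomain.HeightOneSpectrum.valuation_lt_one_iff_mem]
        exact (hP p).2 (hp v hv)
      calc _ ≤ P.valuation L (algebraMap (𝓞 L) L (algebraMap (𝓞 F) (𝓞 L) p)) * 1 :=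
            mul_le_mul' le_rfl (P.valuation_le_one _)
        _ < 1 := by rwa [mul_one]
    calc _ ≤ 1 * P.valuation L (algebraMap F L tF * (σ ^ i : L ≃ₐ[F] L) θ₀) :=
          mul_le_mul' h2 le_rfl
      _ < 1 := by rwa [one_mul]
  · -- bigness
    intro j
    set z₀ : 𝓞 F := p ^ j * t * (D₃ : 𝓞 F) with hz₀
    have hz₀0 : z₀ ≠ 0 := by
      rw [hz₀]
      refine mul_ne_zero (mul_ne_zero (pow_ne_zero _ hp0) ht0) ?_
      exact_mod_cast hD₃
    have hzL0 : algebraMap (𝓞 F) (𝓞 L) z₀ ≠ 0 := by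
      intro h
      have h1 : algebraMap F L (algebraMap (𝓞 F) F z₀) = 0 := by
        rw [← coe_alg, h, map_zero]
      exact hz₀0 ((FaithfulSMul.algebraMap_eq_zero_iff (𝓞 F) F).1 ((map_eq_zero _).1 h1))
    obtain ⟨N, hN⟩ := lower hzL0
    refine ⟨N, fun x hx => ?_⟩
    rw [crit]
    intro i hi v hv
    set zF : F := algebraMap (𝓞 F) F z₀ with hzF
    have hzF0 : zF ≠ 0 := fun h => hz₀0 ((FaithfulSMul.algebraMap_eq_zero_iff (𝓞 F) F).1 h)
    set y : L := zF⁻¹ • x with hy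
    have hyP : ∀ P : Pl L, OvL v P → P.valuation L y ≤ 1 := by
      intro P hP
      rw [hy, Algebra.smul_def, map_inv₀, map_mul, map_inv₀, hzF, ← coe_alg]
      have h1 := hN P
      have h2 := hx v hv P hP
      have h3 : P.valuation L (algebraMap (𝓞 L) L (algebraMap (𝓞 F) (𝓞 L) z₀)) ≠ 0 := by
        rw [Valuation.ne_zero_iff]
        exact fun h => hzL0 ((FaithfulSMul.algebraMap_eq_zero_iff (𝓞 L) L).1 h)
      have h4 := mul_le_mul' (le_refl (P.valuation L (algebraMap (𝓞 L) L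
        (algebraMap (𝓞 F) (𝓞 L) z₀)))⁻¹) (le_trans h2 h1)
      rwa [inv_mul_cancel₀ h3] at h4
    obtain ⟨s, hs, z, hz⟩ := den hyP
    obtain ⟨w, hw⟩ := hI₃ i hi z
    have h1 : v.valuation F ((D₃ : F) * c i y) ≤ 1 := by
      have h2 : algebraMap (𝓞 F) F s * ((D₃ : F) * c i y) = algebraMap (𝓞 F) F w := by
        have e : c i (algebraMap F L (algebraMap (𝓞 F) F s) * y) =
            algebraMap (𝓞 F) F s * c i y := by
          rw [← Algebra.smul_def (algebraMap (𝓞 F) F s) y, (c i).map_smul, smul_eq_mul]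
        rw [hw, ← hz, e]
        ring
      have h3 := congrArg (v.valuation F) h2
      rw [map_mul] at h3
      have h4 : v.valuation F (algebraMap (𝓞 F) F s) = 1 := by
        rw [IsDedekindDomain.HeightOneSpectrum.valuation_eq_one_iff_notMem]
        exact hs
      rw [h4, one_mul] at h3
      rw [h3]
      exact v.valuation_le_one w
    have h2 : c i x = (algebraMap (𝓞 F) F p) ^ j * tF * ((D₃ : F) * c i y) := by
      rw [hy, map_smul, smul_eq_mul]
      have h3 : zF = (algebraMap (𝓞 F) F p) ^ j * tF * (D₃ : F) := by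
        rw [hzF, hz₀, map_mul, map_mul, map_pow, map_intCast]
      have h4 : (algebraMap (𝓞 F) F p) ^ j * tF * ((D₃ : F) * (zF⁻¹ * c i x)) =
          ((algebraMap (𝓞 F) F p) ^ j * tF * (D₃ : F)) * (zF⁻¹ * c i x) := by ring
      rw [h4, ← h3, mul_inv_cancel_left₀ hzF0]
    rw [h2, map_mul, map_mul, map_pow]
    have h3 : v.valuation F (algebraMap (𝓞 F) F p) ≤ WithZero.exp (-(1 : ℤ)) := by
      rw [IsDedekindDomain.HeightOneSpectrum.valuation_of_algebraMap]
      have := (v.intValuation_le_pow_iff_mem p 1).2 (by rw [pow_one]; exact hp v hv)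
      simpa using this
    have h4 : v.valuation F (algebraMap (𝓞 F) F p) ^ j ≤ WithZero.exp (-(j : ℤ)) := by
      refine le_trans (pow_le_pow_left' h3 j) ?_
      rw [← WithZero.exp_nsmul]
      simp
    calc v.valuation F (algebraMap (𝓞 F) F p) ^ j * v.valuation F tF *
          v.valuation F ((D₃ : F) * c i y)
        ≤ WithZero.exp (-(j : ℤ)) * v.valuation F tF * 1 :=
        mul_le_mul' (mul_le_mul' h4 le_rfl) h1
      _ = _ := by rw [mul_one, mul_comm]

end NBL40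

theorem st_NBL : ST_NBL := by
  intro F L _ _ _ _ _ _ σ hσ B
  obtain ⟨θ, h⟩ := NBL40.main σ hσ B
  exact ⟨θ, h.span, h.mul, h.fix, h.small, h.big⟩

end REC
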