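import Pool.Agent.Helper57.REC.Stmts3

/-!
# REC, VHI: the group 1 + Lat and Hilbert 90   [helper40]
-/

set_option autoImplicit false

open scoped Classical
open NumberField

namespace REC

open Pool.Agent.Helper13.ZL (Pl q HasMean)
open MU (Gal Zb Over CongPow)

namespace VHI40

variable {F L : Type} [Field F] [NumberField F] [Field L] [NumberField L] [Algebra F L]
  [IsGalois F L]

/-- the output of NBL -/
structure NB (σ : L ≃ₐ[F] L) (B : Finset (Pl F)) (θ : L) : Prop where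
  gen : ∀ τ : L ≃ₐ[F] L, ∃ k : ℕ, τ = σ ^ k
  span : ∀ x : L, ∃ a : ℕ → F,
        x = ∑ i ∈ Finset.range (Module.finrank F L), a i • (σ ^ i : L ≃ₐ[F] L) θ
  mul : ∀ (i j : ℕ) (x y : L), LatB σ B θ i x → LatB σ B θ j y → LatB σ B θ (i + j) (x * y)
  fix : ∀ (j : ℕ) (a : F), LatB σ B θ j (algebraMap F L a) →
        ∀ v ∈ B, v.valuation F a ≤ WithZero.exp (-(j : ℤ))
  small : ∀ x : L, LatB σ B θ 0 x → ∀ v ∈ B, ∀ P : Pl L, OvL v P → P.valuation L x < 1
  big : ∀ j : ℕ, ∃ N : ℕ, ∀ x : L,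
        (∀ v ∈ B, ∀ P : Pl L, OvL v P → P.valuation L x ≤ WithZero.exp (-(N : ℤ))) →
        LatB σ B θ j x

theorem pow_finrank (σ : L ≃ₐ[F] L) : σ ^ (Module.finrank F L) = 1 := by
  rw [← IsGalois.card_aut_eq_finrank F L]
  exact pow_card_eq_one'

variable {σ : L ≃ₐ[F] L} {B : Finset (Pl F)} {θ : L}

theorem lat_zero (j : ℕ) : LatB σ B θ j 0 := by
  refine ⟨fun _ => 0, by simp, fun i v _ => by simp⟩

theorem lat_add {j : ℕ} {x y : L} (hx : LatB σ B θ j x) (hy : LatB σ B θ j y) :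
    LatB σ B θ j (x + y) := by
  obtain ⟨a, rfl, ha⟩ := hx
  obtain ⟨b, rfl, hb⟩ := hy
  refine ⟨fun i => a i + b i, ?_, fun i v hv => ?_⟩
  · rw [← Finset.sum_add_distrib]
    exact Finset.sum_congr rfl fun i _ => by rw [add_smul]
  · exact le_trans (Valuation.map_add _ _ _) (max_le (ha i v hv) (hb i v hv))

theorem lat_smul {j : ℕ} {x : L} (c : F) (hc : ∀ v ∈ B, v.valuation F c ≤ 1)
    (hx : LatB σ B θ j x) : LatB σ B θ j (c • x) := by
  obtain ⟨a, rfl, ha⟩ := hx
  refine ⟨fun i => c * a i, ?_, fun i v hv => ?_⟩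
  · rw [Finset.smul_sum]
    exact Finset.sum_congr rfl fun i _ => by rw [mul_smul]
  · rw [map_mul]
    calc _ ≤ 1 * WithZero.exp (-(j : ℤ)) := mul_le_mul' (hc v hv) (ha i v hv)
      _ = _ := one_mul _

theorem lat_neg {j : ℕ} {x : L} (hx : LatB σ B θ j x) : LatB σ B θ j (-x) := by
  have := lat_smul (-1 : F) (fun v _ => by simp) hx
  simpa using this

theorem lat_sub {j : ℕ} {x y : L} (hx : LatB σ B θ j x) (hy : LatB σ B θ j y) :
    LatB σ B θ j (x - y) := by
  rw [sub_eq_add_neg]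
  exact lat_add hx (lat_neg hy)

theorem lat_mono {i j : ℕ} (hij : i ≤ j) {x : L} (hx : LatB σ B θ j x) : LatB σ B θ i x := by
  obtain ⟨a, rfl, ha⟩ := hx
  refine ⟨a, rfl, fun k v hv => le_trans (ha k v hv) ?_⟩
  rw [WithZero.exp_le_exp]
  omega

omit [NumberField F] [NumberField L] [IsGalois F L] in
theorem sig_smul (τ : L ≃ₐ[F] L) (c : F) (x : L) : τ (c • x) = c • τ x := by
  rw [Algebra.smul_def, Algebra.smul_def, map_mul, AlgEquiv.commutes]

/-- rotation of the sums -/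
theorem rot_sum (a : ℕ → F) {n : ℕ} (hn : (σ ^ n : L ≃ₐ[F] L) = 1) (hn0 : 0 < n) :
    ∑ i ∈ Finset.range n, a i • (σ ^ (i + 1) : L ≃ₐ[F] L) θ =
      ∑ i ∈ Finset.range n, (if i = 0 then a (n - 1) else a (i - 1)) •
        (σ ^ i : L ≃ₐ[F] L) θ := by
  obtain ⟨m, rfl⟩ : ∃ m, n = m + 1 := ⟨n - 1, by omega⟩
  rw [Finset.sum_range_succ, Finset.sum_range_succ']
  congr 1
  rw [hn]
  simp

theorem sigma_sum (a : ℕ → F) (n : ℕ) :
    σ (∑ i ∈ Finset.range n, a i • (σ ^ i : L ≃ₐ[F] L) θ) =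
      ∑ i ∈ Finset.range n, a i • (σ ^ (i + 1) : L ≃ₐ[F] L) θ := by
  rw [map_sum]
  refine Finset.sum_congr rfl fun i _ => ?_
  rw [sig_smul, pow_succ', AlgEquiv.mul_apply]

omit [IsGalois F L] in
theorem finrank_pos' : 0 < Module.finrank F L := Module.finrank_pos

theorem lat_sigma {j : ℕ} {x : L} (hx : LatB σ B θ j x) : LatB σ B θ j (σ x) := by
  obtain ⟨a, rfl, ha⟩ := hx
  refine ⟨fun i => if i = 0 then a (Module.finrank F L - 1) else a (i - 1), ?_,
    fun i v hv => ?_⟩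
  · rw [sigma_sum, rot_sum a (pow_finrank σ) finrank_pos']
  · dsimp only
    split_ifs
    · exact ha _ v hv
    · exact ha _ v hv

theorem lat_sum {ι : Type} (s : Finset ι) {j : ℕ} (f : ι → L)
    (h : ∀ i ∈ s, LatB σ B θ j (f i)) : LatB σ B θ j (∑ i ∈ s, f i) := by
  induction s using Finset.induction_on with
  | empty => simpa using lat_zero j
  | insert a s ha ih =>
    rw [Finset.sum_insert ha]
    exact lat_add (h a (Finset.mem_insert_self _ _))
      (ih fun i hi => h i (Finset.mem_insert_of_mem hi))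

theorem lat_pow_sigma {j : ℕ} {x : L} (hx : LatB σ B θ j x) (k : ℕ) :
    LatB σ B θ j ((σ ^ k : L ≃ₐ[F] L) x) := by
  induction k with
  | zero => simpa using hx
  | succ k ih =>
    rw [pow_succ', AlgEquiv.mul_apply]
    exact lat_sigma ih

/-- fixed elements come from `F` -/
theorem mem_F (h : NB σ B θ) {x : L} (hx : σ x = x) : ∃ a : F, algebraMap F L a = x := by
  have : ∀ τ : L ≃ₐ[F] L, τ x = x := by
    intro τ
    obtain ⟨k, rfl⟩ := h.gen τ
    induction k with
    | zero => simp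
    | succ k ih => rw [pow_succ, AlgEquiv.mul_apply, hx, ih]
  exact (IsGalois.mem_range_algebraMap_iff_fixed x).2 this

omit [IsGalois F L] in
theorem lin (h : NB σ B θ) :
    LinearIndependent F (fun i : Fin (Module.finrank F L) => (σ ^ (i : ℕ) : L ≃ₐ[F] L) θ) := by
  apply linearIndependent_of_top_le_span_of_card_eq_finrank
  · intro x _
    obtain ⟨a, rfl⟩ := h.span x
    refine Submodule.sum_mem _ fun i hi => ?_
    exact Submodule.smul_mem _ _ (Submodule.subset_span ⟨⟨i, Finset.mem_range.1 hi⟩, rfl⟩)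
  · simp

theorem coef_zero (h : NB σ B θ) {a : ℕ → F}
    (ha : ∑ i ∈ Finset.range (Module.finrank F L), a i • (σ ^ i : L ≃ₐ[F] L) θ = 0) :
    ∀ i < Module.finrank F L, a i = 0 := by
  intro i hi
  have h1 := Fintype.linearIndependent_iff.1 (lin h) (fun i => a (i : ℕ))
  rw [← Fin.sum_univ_eq_sum_range (fun i => a i • (σ ^ i : L ≃ₐ[F] L) θ)] at ha
  exact h1 ha ⟨i, hi⟩

theorem coef_unique (h : NB σ B θ) {a b : ℕ → F}
    (hab : ∑ i ∈ Finset.range (Module.finrank F L), a i • (σ ^ i : L ≃ₐ[F] L) θ =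
      ∑ i ∈ Finset.range (Module.finrank F L), b i • (σ ^ i : L ≃ₐ[F] L) θ) :
    ∀ i < Module.finrank F L, a i = b i := by
  intro i hi
  have := coef_zero h (a := fun i => a i - b i) (by
    simp only [sub_smul]
    rw [Finset.sum_sub_distrib, hab, sub_self]) i hi
  exact sub_eq_zero.1 this

/-- `u` is congruent to `1` -/
def One (σ : L ≃ₐ[F] L) (B : Finset (Pl F)) (θ : L) (j : ℕ) (u : L) : Prop :=
  LatB σ B θ j (u - 1)

theorem one_one (j : ℕ) : One σ B θ j 1 := by
  unfold One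
  rw [sub_self]
  exact lat_zero j

theorem one_mul' (h : NB σ B θ) {j : ℕ} {u w : L} (hu : One σ B θ j u) (hw : One σ B θ j w) :
    One σ B θ j (u * w) := by
  unfold One at *
  have h1 : u * w - 1 = (u - 1) * (w - 1) + (u - 1) + (w - 1) := by ring
  rw [h1]
  exact lat_add (lat_add (lat_mono (by omega) (h.mul _ _ _ _ hu hw)) hu) hw

theorem one_sigma {j : ℕ} {u : L} (hu : One σ B θ j u) : One σ B θ j (σ u) := by
  unfold One at *
  have := lat_sigma hu
  rwa [map_sub, map_one] at this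

theorem one_pow_sigma {j : ℕ} {u : L} (hu : One σ B θ j u) (k : ℕ) :
    One σ B θ j ((σ ^ k : L ≃ₐ[F] L) u) := by
  unfold One at *
  have := lat_pow_sigma hu k
  rwa [map_sub, map_one] at this

theorem one_prod (h : NB σ B θ) {ι : Type} (s : Finset ι) {j : ℕ} (f : ι → L)
    (hf : ∀ i ∈ s, One σ B θ j (f i)) : One σ B θ j (∏ i ∈ s, f i) := by
  induction s using Finset.induction_on with
  | empty => simpa using one_one j
  | insert a s ha ih =>
    rw [Finset.prod_insert ha]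
    exact one_mul' h (hf a (Finset.mem_insert_self _ _))
      (ih fun i hi => hf i (Finset.mem_insert_of_mem hi))

/-- the product of the conjugates comes from `F` -/
theorem prod_mem_F (h : NB σ B θ) (u : L) :
    ∃ c : F, algebraMap F L c =
      ∏ i ∈ Finset.range (Module.finrank F L), (σ ^ i : L ≃ₐ[F] L) u := by
  apply mem_F h
  have h0 := pow_finrank (F := F) σ
  have h1 : 0 < Module.finrank F L := finrank_pos'
  obtain ⟨m, hm⟩ : ∃ m, Module.finrank F L = m + 1 := ⟨Module.finrank F L - 1, by omega⟩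
  rw [hm] at h0 ⊢
  rw [map_prod, Finset.prod_congr (rfl : Finset.range (m + 1) = _) (fun i _ =>
    (by rw [pow_succ', AlgEquiv.mul_apply] :
      σ ((σ ^ i : L ≃ₐ[F] L) u) = (σ ^ (i + 1) : L ≃ₐ[F] L) u)),
    Finset.prod_range_succ, Finset.prod_range_succ', h0]
  simp

theorem val_one_of_sub (v : Pl F) {c : F} (hc : v.valuation F (c - 1) < 1) :
    v.valuation F c = 1 := by
  have h1 : c = (c - 1) + 1 := by ring
  rw [h1, Valuation.map_add_eq_of_lt_right _ (by rw [map_one]; exact hc), map_one]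

theorem exp_neg_lt_one {j : ℕ} (hj : 0 < j) :
    (WithZero.exp (-(j : ℤ)) : WithZero (Multiplicative ℤ)) < 1 := by
  rw [← WithZero.exp_zero, WithZero.exp_lt_exp]
  omega

theorem norm_val (h : NB σ B θ) {j : ℕ} (hj : 0 < j) {u : L} (hu : One σ B θ j u) {c : F}
    (hc : algebraMap F L c =
      ∏ i ∈ Finset.range (Module.finrank F L), (σ ^ i : L ≃ₐ[F] L) u) :
    One σ B θ j (algebraMap F L c) ∧ ∀ v ∈ B, v.valuation F c = 1 := by
  have h1 : One σ B θ j (algebraMap F L c) := by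
    rw [hc]
    exact one_prod h _ _ fun i _ => one_pow_sigma hu i
  refine ⟨h1, fun v hv => ?_⟩
  apply val_one_of_sub
  have h2 : LatB σ B θ j (algebraMap F L (c - 1)) := by
    rw [map_sub, map_one]
    exact h1
  exact lt_of_le_of_lt (h.fix j _ h2 v hv) (exp_neg_lt_one hj)

theorem one_ne (h : NB σ B θ) (hB : B.Nonempty) {j : ℕ} (hj : 0 < j) {u : L}
    (hu : One σ B θ j u) : u ≠ 0 := by
  obtain ⟨c, hc⟩ := prod_mem_F h u
  obtain ⟨-, h2⟩ := norm_val h hj hu hc
  obtain ⟨v, hv⟩ := hB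
  rintro rfl
  have h3 : c = 0 := by
    have : algebraMap F L c = 0 := by
      rw [hc]
      apply Finset.prod_eq_zero (Finset.mem_range.2 finrank_pos')
      simp
    exact (map_eq_zero _).1 this
  have h4 := h2 v hv
  rw [h3, map_zero] at h4
  exact zero_ne_one h4

theorem one_inv (h : NB σ B θ) {j : ℕ} (hj : 0 < j) {u : L} (hu0 : u ≠ 0)
    (hu : One σ B θ j u) : One σ B θ j u⁻¹ := by
  obtain ⟨c, hc⟩ := prod_mem_F h u
  obtain ⟨h1, h2⟩ := norm_val h hj hu hc
  obtain ⟨m, hm⟩ : ∃ m, Module.finrank F L = m + 1 :=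
    ⟨Module.finrank F L - 1, by have : 0 < Module.finrank F L := finrank_pos'; omega⟩
  rw [hm, Finset.prod_range_succ'] at hc
  simp only [pow_zero, AlgEquiv.one_apply] at hc
  set w : L := ∏ i ∈ Finset.range m, (σ ^ (i + 1) : L ≃ₐ[F] L) u with hw
  have h3 : One σ B θ j w := one_prod h _ _ fun i _ => one_pow_sigma hu (i + 1)
  have hw0 : w ≠ 0 := by
    rw [hw, Finset.prod_ne_zero_iff]
    intro i _
    exact (map_ne_zero _).2 hu0
  have hcL : algebraMap F L c ≠ 0 := by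
    rw [hc]
    exact mul_ne_zero hw0 hu0
  have hc0 : c ≠ 0 := fun hh => hcL (by rw [hh, map_zero])
  have h4 : u⁻¹ - 1 = c⁻¹ • ((w - 1) - (algebraMap F L c - 1)) := by
    rw [Algebra.smul_def, map_inv₀]
    have : u⁻¹ = (algebraMap F L c)⁻¹ * w := by
      rw [hc]
      field_simp
    rw [this]
    field_simp
    ring
  unfold One at *
  rw [h4]
  apply lat_smul
  · intro v hv
    rw [map_inv₀, h2 v hv, inv_one]
  · exact lat_sub h3 h1

/-- the expansion of the product of the conjugates -/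
theorem prod_expand (h : NB σ B θ) {j : ℕ} {x : L} (hx : LatB σ B θ j x) (m : ℕ) :
    LatB σ B θ (j + j) (∏ i ∈ Finset.range m, (1 + (σ ^ i : L ≃ₐ[F] L) x) - 1 -
      ∑ i ∈ Finset.range m, (σ ^ i : L ≃ₐ[F] L) x) := by
  induction m with
  | zero => simpa using lat_zero (j + j)
  | succ m ih =>
    rw [Finset.prod_range_succ, Finset.sum_range_succ]
    set p : L := ∏ i ∈ Finset.range m, (1 + (σ ^ i : L ≃ₐ[F] L) x) with hp
    set s : L := ∑ i ∈ Finset.range m, (σ ^ i : L ≃ₐ[F] L) x with hs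
    set y : L := (σ ^ m : L ≃ₐ[F] L) x with hy
    have h1 : p * (1 + y) - 1 - (s + y) = (p - 1 - s) + ((p - 1 - s) + s) * y := by ring
    rw [h1]
    have hs' : LatB σ B θ j s := lat_sum _ _ fun i _ => lat_pow_sigma hx i
    refine lat_add ih (h.mul _ _ _ _ (lat_add (lat_mono (by omega) ih) hs') ?_)
    exact lat_pow_sigma hx m

/-- the trace of `θ` -/
theorem sum_const (h : NB σ B θ) {j : ℕ} {A : F}
    (hA : LatB σ B θ j (∑ i ∈ Finset.range (Module.finrank F L), A • (σ ^ i : L ≃ₐ[F] L) θ)) :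
    ∀ v ∈ B, v.valuation F A ≤ WithZero.exp (-(j : ℤ)) := by
  intro v hv
  obtain ⟨b, hb, hb'⟩ := hA
  have := coef_unique h (a := fun _ => A) (b := b) hb 0 finrank_pos'
  rw [this]
  exact hb' 0 v hv

omit [NumberField F] [NumberField L] [IsGalois F L] in
theorem sum_conj (n : ℕ) (hn : (σ ^ n : L ≃ₐ[F] L) = 1) (hn0 : 0 < n) (k : ℕ) :
    ∑ l ∈ Finset.range n, (σ ^ l : L ≃ₐ[F] L) ((σ ^ k : L ≃ₐ[F] L) θ) =
      ∑ i ∈ Finset.range n, (σ ^ i : L ≃ₐ[F] L) θ := by
  induction k with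
  | zero => simp
  | succ k ih =>
    rw [← ih]
    obtain ⟨m, rfl⟩ : ∃ m, n = m + 1 := ⟨n - 1, by omega⟩
    rw [Finset.sum_range_succ, Finset.sum_range_succ']
    have h1 : ∀ l, (σ ^ l : L ≃ₐ[F] L) ((σ ^ (k + 1) : L ≃ₐ[F] L) θ) =
        (σ ^ (l + 1) : L ≃ₐ[F] L) ((σ ^ k : L ≃ₐ[F] L) θ) := by
      intro l
      rw [← AlgEquiv.mul_apply, ← AlgEquiv.mul_apply, ← pow_add, ← pow_add]
      congr 2
      omega
    congr 1
    · exact Finset.sum_congr rfl fun l _ => h1 l
    · rw [h1, hn]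
      simp

/-- one step of the approximation -/
theorem step (h : NB σ B θ) (hB : B.Nonempty) {j : ℕ} (hj : 0 < j) {u : L}
    (hu : One σ B θ j u)
    (hN : ∏ i ∈ Finset.range (Module.finrank F L), (σ ^ i : L ≃ₐ[F] L) u = 1) :
    ∃ z : L, LatB σ B θ j z ∧ One σ B θ (j + 1) (u * (1 + z) * (σ (1 + z))⁻¹) := by
  set n := Module.finrank F L with hn
  have hn0 : 0 < n := finrank_pos'
  have hnn : (σ ^ n : L ≃ₐ[F] L) = 1 := pow_finrank σ
  set x : L := u - 1 with hx
  have hux : u = 1 + x := by rw [hx]; ring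
  have hxl : LatB σ B θ j x := hu
  obtain ⟨a, hxa, ha⟩ := hxl
  rw [← hn] at hxa
  -- the sum of the coefficients
  set A : F := ∑ k ∈ Finset.range n, a k with hA
  have hTr : ∑ l ∈ Finset.range n, (σ ^ l : L ≃ₐ[F] L) x =
      ∑ i ∈ Finset.range n, A • (σ ^ i : L ≃ₐ[F] L) θ := by
    calc ∑ l ∈ Finset.range n, (σ ^ l : L ≃ₐ[F] L) x
        = ∑ l ∈ Finset.range n, ∑ k ∈ Finset.range n,
            a k • (σ ^ l : L ≃ₐ[F] L) ((σ ^ k : L ≃ₐ[F] L) θ) := by
          refine Finset.sum_congr rfl fun l _ => ?_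
          rw [hxa, map_sum]
          exact Finset.sum_congr rfl fun k _ => sig_smul _ _ _
      _ = ∑ k ∈ Finset.range n, a k • ∑ l ∈ Finset.range n,
            (σ ^ l : L ≃ₐ[F] L) ((σ ^ k : L ≃ₐ[F] L) θ) := by
          rw [Finset.sum_comm]
          exact Finset.sum_congr rfl fun k _ => by rw [Finset.smul_sum]
      _ = ∑ k ∈ Finset.range n, a k • ∑ i ∈ Finset.range n, (σ ^ i : L ≃ₐ[F] L) θ :=
          Finset.sum_congr rfl fun k _ => by rw [sum_conj n hnn hn0 k]
      _ = _ := by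
          rw [← Finset.sum_smul, ← hA, Finset.smul_sum]
  have h2j : LatB σ B θ (j + j) (∑ l ∈ Finset.range n, (σ ^ l : L ≃ₐ[F] L) x) := by
    have h1 := prod_expand h hu n
    rw [← hx] at h1
    have h2 : ∏ i ∈ Finset.range n, (1 + (σ ^ i : L ≃ₐ[F] L) x) = 1 := by
      refine Eq.trans (Finset.prod_congr rfl fun i _ => ?_) hN
      have h7 : (σ ^ i : L ≃ₐ[F] L) (1 + x) = 1 + (σ ^ i : L ≃ₐ[F] L) x := by
        rw [map_add, map_one]
      rw [← h7, ← hux]
    rw [h2, sub_self, zero_sub] at h1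
    simpa using lat_neg h1
  rw [hTr] at h2j
  have hAv : ∀ v ∈ B, v.valuation F A ≤ WithZero.exp (-((j + j : ℕ) : ℤ)) := sum_const h h2j
  -- the coefficients of `z`
  let c : ℕ → F := fun k => - ∑ i ∈ Finset.range k, a (i + 1)
  have hcv : ∀ k, ∀ v ∈ B, v.valuation F (c k) ≤ WithZero.exp (-(j : ℤ)) := by
    intro k v hv
    show v.valuation F (- ∑ i ∈ Finset.range k, a (i + 1)) ≤ _
    rw [Valuation.map_neg]
    exact Valuation.map_sum_le _ fun i _ => ha _ v hv
  set z : L := ∑ k ∈ Finset.range n, c k • (σ ^ k : L ≃ₐ[F] L) θ with hz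
  have hzl : LatB σ B θ j z := ⟨c, hz, hcv⟩
  have hkey : x + z - σ z = A • θ := by
    rw [hz, sigma_sum, rot_sum c hnn hn0, hxa, ← Finset.sum_add_distrib,
      ← Finset.sum_sub_distrib]
    have h3 : ∀ k ∈ Finset.range n,
        a k • (σ ^ k : L ≃ₐ[F] L) θ + c k • (σ ^ k : L ≃ₐ[F] L) θ -
          (if k = 0 then c (n - 1) else c (k - 1)) • (σ ^ k : L ≃ₐ[F] L) θ =
        (if k = 0 then A else 0) • (σ ^ k : L ≃ₐ[F] L) θ := by
      intro k _
      rw [← add_smul, ← sub_smul]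
      congr 1
      by_cases hk : k = 0
      · subst hk
        rw [if_pos rfl, if_pos rfl]
        show a 0 + (- ∑ i ∈ Finset.range 0, a (i + 1)) - (- ∑ i ∈ Finset.range (n - 1),
          a (i + 1)) = A
        rw [hA]
        obtain ⟨m, hm⟩ : ∃ m, n = m + 1 := ⟨n - 1, by omega⟩
        rw [hm, Finset.sum_range_succ', Nat.add_sub_cancel]
        simp
        ring
      · rw [if_neg hk, if_neg hk]
        obtain ⟨m, rfl⟩ : ∃ m, k = m + 1 := ⟨k - 1, by omega⟩
        show a (m + 1) + (- ∑ i ∈ Finset.range (m + 1), a (i + 1)) - (- ∑ i ∈ Finset.range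
          (m + 1 - 1), a (i + 1)) = 0
        rw [Nat.add_sub_cancel, Finset.sum_range_succ]
        ring
    rw [Finset.sum_congr rfl h3]
    rw [Finset.sum_eq_single 0]
    · simp
    · intro k _ hk
      rw [if_neg hk, zero_smul]
    · intro h0
      exact absurd (Finset.mem_range.2 hn0) h0
  have hAl : LatB σ B θ (j + 1) (A • θ) := by
    refine ⟨fun k => if k = 0 then A else 0, ?_, fun i v hv => ?_⟩
    · rw [← hn, Finset.sum_eq_single 0]
      · simp
      · intro k _ hk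
        dsimp only
        rw [if_neg hk, zero_smul]
      · intro h0
        exact absurd (Finset.mem_range.2 hn0) h0
    · dsimp only
      split_ifs
      · refine le_trans (hAv v hv) ?_
        rw [WithZero.exp_le_exp]
        push_cast
        omega
      · rw [map_zero]
        exact bot_le
  refine ⟨z, hzl, ?_⟩
  have h1z : One σ B θ j (1 + z) := by
    unfold One
    rw [add_sub_cancel_left]
    exact hzl
  have h1z' : One σ B θ j (σ (1 + z)) := one_sigma h1z
  have hne : σ (1 + z) ≠ 0 := one_ne h hB hj h1z'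
  have hinv : One σ B θ j (σ (1 + z))⁻¹ := one_inv h hj hne h1z'
  -- the difference
  have hd : LatB σ B θ (j + 1) (u * (1 + z) - σ (1 + z)) := by
    have h4 : u * (1 + z) - σ (1 + z) = A • θ + x * z := by
      rw [← hkey, hux, map_add, map_one]
      ring
    rw [h4]
    exact lat_add hAl (lat_mono (by omega) (h.mul _ _ _ _ hu hzl))
  unfold One at hinv ⊢
  have h5 : u * (1 + z) * (σ (1 + z))⁻¹ - 1 =
      (u * (1 + z) - σ (1 + z)) + (u * (1 + z) - σ (1 + z)) * ((σ (1 + z))⁻¹ - 1) := by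
    field_simp
    ring
  rw [h5]
  exact lat_add hd (lat_mono (by omega) (h.mul _ _ _ _ hd hinv))

omit [NumberField F] [IsGalois F L] in
/-- the norm of `σ b / b` -/
theorem norm_div (b : L) (hb : b ≠ 0) (n : ℕ) (hn : (σ ^ n : L ≃ₐ[F] L) = 1) :
    ∏ i ∈ Finset.range n, (σ ^ i : L ≃ₐ[F] L) (σ b / b) = 1 := by
  have h1 : ∀ i, (σ ^ i : L ≃ₐ[F] L) (σ b / b) =
      (σ ^ (i + 1) : L ≃ₐ[F] L) b / (σ ^ i : L ≃ₐ[F] L) b := by
    intro i
    rw [map_div₀, pow_succ, AlgEquiv.mul_apply]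
  rw [Finset.prod_congr rfl fun i _ => h1 i]
  have h2 : ∀ m, ∏ i ∈ Finset.range m, ((σ ^ (i + 1) : L ≃ₐ[F] L) b / (σ ^ i : L ≃ₐ[F] L) b) =
      (σ ^ m : L ≃ₐ[F] L) b / b := by
    intro m
    induction m with
    | zero => simp [hb]
    | succ m ih =>
      rw [Finset.prod_range_succ, ih]
      have : (σ ^ m : L ≃ₐ[F] L) b ≠ 0 := (map_ne_zero _).2 hb
      field_simp
  rw [h2, hn]
  simp [hb]

theorem iterate (h : NB σ B θ) (hB : B.Nonempty) {b : L} (hb : b ≠ 0)
    (hu : One σ B θ 1 (σ b / b)) (M : ℕ) :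
    ∃ y : L, y ≠ 0 ∧ One σ B θ 1 y ∧ One σ B θ (M + 1) (σ (b / y) / (b / y)) := by
  induction M with
  | zero =>
    refine ⟨1, one_ne_zero, one_one 1, ?_⟩
    simpa using hu
  | succ M ih =>
    obtain ⟨y, hy0, hy1, hy⟩ := ih
    have hby : b / y ≠ 0 := div_ne_zero hb hy0
    obtain ⟨z, hz, hz'⟩ := step h hB (Nat.succ_pos M) hy
      (norm_div (b / y) hby _ (pow_finrank σ))
    have h1z : One σ B θ (M + 1) (1 + z) := by
      unfold One
      rw [add_sub_cancel_left]
      exact hz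
    have hz0 : 1 + z ≠ 0 := one_ne h hB (Nat.succ_pos M) h1z
    refine ⟨y * (1 + z), mul_ne_zero hy0 hz0, one_mul' h hy1 (lat_mono (by omega) h1z), ?_⟩
    have h1 : σ (b / (y * (1 + z))) / (b / (y * (1 + z))) =
        σ (b / y) / (b / y) * (1 + z) * (σ (1 + z))⁻¹ := by
      have e1 : σ (b / (y * (1 + z))) = σ (b / y) * (σ (1 + z))⁻¹ := by
        rw [← map_inv₀, ← map_mul]
        congr 1
        field_simp
      rw [e1]
      field_simp
    rw [h1]
    exact hz'

theorem trace_theta (h : NB σ B θ) : ∃ T : F, T ≠ 0 ∧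
    algebraMap F L T = ∑ i ∈ Finset.range (Module.finrank F L), (σ ^ i : L ≃ₐ[F] L) θ := by
  have h1 : σ (∑ i ∈ Finset.range (Module.finrank F L), (σ ^ i : L ≃ₐ[F] L) θ) =
      ∑ i ∈ Finset.range (Module.finrank F L), (σ ^ i : L ≃ₐ[F] L) θ := by
    have := sigma_sum (σ := σ) (θ := θ) (fun _ => (1 : F)) (Module.finrank F L)
    simp only [one_smul] at this
    rw [this]
    have h2 := rot_sum (σ := σ) (θ := θ) (fun _ => (1 : F)) (pow_finrank σ)
      (finrank_pos' (F := F) (L := L))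
    simpa using h2
  obtain ⟨T, hT⟩ := mem_F h h1
  refine ⟨T, ?_, hT⟩
  rintro rfl
  rw [map_zero] at hT
  have h2 := coef_zero h (a := fun _ => (1 : F)) (by
    simp only [one_smul]
    exact hT.symm) 0 finrank_pos'
  exact one_ne_zero h2

theorem main (h : NB σ B θ) (hB : B.Nonempty) {b : L} (hb : b ≠ 0)
    (hu : One σ B θ 1 (σ b / b)) : ∃ a : F, a ≠ 0 ∧ One σ B θ 1 (b / algebraMap F L a) := by
  obtain ⟨T, hT0, hT⟩ := trace_theta h
  set n := Module.finrank F L with hn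
  have hTL : algebraMap F L T ≠ 0 := (map_ne_zero _).2 hT0
  -- a large M
  obtain ⟨M, hM⟩ : ∃ M : ℕ, ∀ v ∈ B,
      (v.valuation F T)⁻¹ * WithZero.exp (-((M + 1 : ℕ) : ℤ)) ≤ WithZero.exp (-(1 : ℤ)) := by
    have hv : ∀ v : Pl F, ∃ M : ℕ, ∀ M' : ℕ, M ≤ M' →
        (v.valuation F T)⁻¹ * WithZero.exp (-((M' + 1 : ℕ) : ℤ)) ≤ WithZero.exp (-(1 : ℤ)) := by
      intro v
      have h0 : v.valuation F T ≠ 0 := (Valuation.ne_zero_iff _).2 hT0
      refine ⟨(- WithZero.log (v.valuation F T)).toNat, fun M' hM' => ?_⟩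
      rw [← WithZero.exp_log h0, ← WithZero.exp_neg, ← WithZero.exp_add, WithZero.exp_le_exp]
      push_cast
      have := Int.self_le_toNat (- WithZero.log (v.valuation F T))
      omega
    choose f hf using hv
    refine ⟨∑ v ∈ B, f v, fun v hv => hf v _ ?_⟩
    exact Finset.single_le_sum (f := f) (fun _ _ => Nat.zero_le _) hv
  obtain ⟨y, hy0, hy1, hy⟩ := iterate h hB hb hu M
  set b' : L := b / y with hb'
  have hb'0 : b' ≠ 0 := div_ne_zero hb hy0
  clear_value b'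
  set w : L := σ b' / b' with hw
  clear_value w
  -- the quotients `σ ^ k b' / b'`
  have hk : ∀ k : ℕ, One σ B θ (M + 1) ((σ ^ k : L ≃ₐ[F] L) b' / b') := by
    intro k
    induction k with
    | zero =>
      simp only [pow_zero, AlgEquiv.one_apply]
      rw [div_self hb'0]
      exact one_one _
    | succ k ih =>
      have h1 : (σ ^ (k + 1) : L ≃ₐ[F] L) b' / b' =
          (σ ^ k : L ≃ₐ[F] L) w * ((σ ^ k : L ≃ₐ[F] L) b' / b') := by
        have h2 : (σ ^ k : L ≃ₐ[F] L) w = (σ ^ (k + 1) : L ≃ₐ[F] L) b' /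
            (σ ^ k : L ≃ₐ[F] L) b' := by
          rw [hw, pow_succ, AlgEquiv.mul_apply]
          exact map_div₀ _ _ _
        have : (σ ^ k : L ≃ₐ[F] L) b' ≠ 0 := (map_ne_zero _).2 hb'0
        rw [h2]
        field_simp
      rw [h1]
      exact one_mul' h (one_pow_sigma hy k) ih
  -- the element `t` of trace `1`
  set t : L := θ / algebraMap F L T with ht
  have hsum : ∑ k ∈ Finset.range n, (σ ^ k : L ≃ₐ[F] L) t = 1 := by
    have h1 : ∀ k, (σ ^ k : L ≃ₐ[F] L) t = (σ ^ k : L ≃ₐ[F] L) θ / algebraMap F L T := by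
      intro k
      rw [ht, map_div₀, AlgEquiv.commutes]
    rw [Finset.sum_congr rfl fun k _ => h1 k, ← Finset.sum_div, ← hT, div_self hTL]
  set s : L := ∑ k ∈ Finset.range n, (σ ^ k : L ≃ₐ[F] L) (t * b') with hs
  have hsF : σ s = s := by
    have hn0 : 0 < n := finrank_pos'
    have hnn : (σ ^ n : L ≃ₐ[F] L) = 1 := pow_finrank σ
    obtain ⟨m, hm⟩ : ∃ m, n = m + 1 := ⟨n - 1, by omega⟩
    rw [hs, hm]
    rw [hm] at hnn
    rw [map_sum, Finset.sum_congr (rfl : Finset.range (m + 1) = _) (fun i _ =>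
      (by rw [pow_succ', AlgEquiv.mul_apply] :
        σ ((σ ^ i : L ≃ₐ[F] L) (t * b')) = (σ ^ (i + 1) : L ≃ₐ[F] L) (t * b'))),
      Finset.sum_range_succ, Finset.sum_range_succ', hnn]
    simp
  obtain ⟨a, ha⟩ := mem_F h hsF
  have hlat : ∀ k : ℕ, LatB σ B θ 1 ((σ ^ k : L ≃ₐ[F] L) t *
      ((σ ^ k : L ≃ₐ[F] L) b' / b' - 1)) := by
    intro k
    have h1 : LatB σ B θ 0 ((σ ^ k : L ≃ₐ[F] L) θ) := by
      apply lat_pow_sigma
      refine ⟨fun i => if i = 0 then 1 else 0, ?_, fun i v _ => ?_⟩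
      · rw [Finset.sum_eq_single 0]
        · simp
        · intro k _ hk
          dsimp only
          rw [if_neg hk, zero_smul]
        · intro h0
          exact absurd (Finset.mem_range.2 finrank_pos') h0
      · dsimp only
        split_ifs
        · simp
        · simp
    have h2 := h.mul _ _ _ _ h1 (hk k)
    rw [zero_add] at h2
    obtain ⟨c, hc, hc'⟩ := h2
    refine ⟨fun i => T⁻¹ * c i, ?_, fun i v hv => ?_⟩
    · have h3 : (σ ^ k : L ≃ₐ[F] L) t * ((σ ^ k : L ≃ₐ[F] L) b' / b' - 1) =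
          T⁻¹ • ((σ ^ k : L ≃ₐ[F] L) θ * ((σ ^ k : L ≃ₐ[F] L) b' / b' - 1)) := by
        rw [ht, map_div₀, AlgEquiv.commutes, Algebra.smul_def, map_inv₀]
        ring
      rw [h3, hc, Finset.smul_sum]
      exact Finset.sum_congr rfl fun i _ => by rw [mul_smul]
    · rw [map_mul, map_inv₀]
      refine le_trans (mul_le_mul_right (hc' i v hv) _) ?_
      have := hM v hv
      simpa using this
  have hs1 : One σ B θ 1 (s / b') := by
    unfold One
    have h1 : s / b' - 1 = ∑ k ∈ Finset.range n, (σ ^ k : L ≃ₐ[F] L) t *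
        ((σ ^ k : L ≃ₐ[F] L) b' / b' - 1) := by
      have e : ∀ k : ℕ, (σ ^ k : L ≃ₐ[F] L) t * ((σ ^ k : L ≃ₐ[F] L) b' / b' - 1) =
          (σ ^ k : L ≃ₐ[F] L) (t * b') / b' - (σ ^ k : L ≃ₐ[F] L) t := by
        intro k
        rw [map_mul]
        ring
      rw [Finset.sum_congr rfl fun k _ => e k, Finset.sum_sub_distrib, hsum, hs, Finset.sum_div]
    rw [h1]
    exact lat_sum _ _ fun k _ => hlat k
  have hs0 : s / b' ≠ 0 := one_ne h hB Nat.one_pos hs1
  have hsne : s ≠ 0 := fun hh => hs0 (by rw [hh, zero_div])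
  clear_value s
  refine ⟨a, ?_, ?_⟩
  · rintro rfl
    rw [map_zero] at ha
    exact hsne ha.symm
  · rw [ha]
    have h1 : b / s = y * (s / b')⁻¹ := by
      rw [hb', inv_div]
      field_simp
    rw [h1]
    exact one_mul' h hy1 (one_inv h Nat.one_pos hs0 hs1)

end VHI40

open VHI40 in
theorem st_VHI : ST_NBL → ST_POV → ST_VHI := by
  intro hN _ F L _ _ _ _ _ _ σ hσ B
  rcases B.eq_empty_or_nonempty with rfl | hB
  · refine ⟨⊤, fun _ _ => Subgroup.mem_top _, fun _ _ v hv => absurd hv (Finset.notMem_empty v),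
      ⟨0, fun _ _ => Subgroup.mem_top _⟩, fun _ _ => ⟨1, Subgroup.mem_top _⟩⟩
  obtain ⟨θ, h1, h2, h3, h4, h5⟩ := hN F L σ hσ B
  have h : NB σ B θ := ⟨hσ, h1, h2, h3, h4, h5⟩
  let V : Subgroup Lˣ :=
    { carrier := {x | One σ B θ 1 (x : L)}
      mul_mem' := by
        intro a b ha hb
        show One σ B θ 1 ((a * b : Lˣ) : L)
        rw [Units.val_mul]
        exact one_mul' h ha hb
      one_mem' := one_one 1
      inv_mem' := by
        intro a ha
        show One σ B θ 1 ((a⁻¹ : Lˣ) : L)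
        rw [Units.val_inv_eq_inv_val]
        exact one_inv h Nat.one_pos a.ne_zero ha }
  have hV : ∀ x : Lˣ, x ∈ V ↔ One σ B θ 1 (x : L) := fun _ => Iff.rfl
  refine ⟨V, ?_, ?_, ?_, ?_⟩
  · intro x hx
    rw [hV] at hx ⊢
    exact one_sigma hx
  · intro x hx v hv P hP
    rw [hV] at hx
    have h6 : P.valuation L ((x : L) - 1) < 1 := h.small _ (lat_mono (Nat.zero_le 1) hx) v hv P hP
    exact val_one_of_sub P h6
  · obtain ⟨N, hNN⟩ := h.big 1
    exact ⟨N, fun x hx => (hV x).2 (hNN _ hx)⟩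
  · intro b hb
    rw [hV] at hb
    have hb' : One σ B θ 1 (σ (b : L) / (b : L)) := by
      simpa using hb
    obtain ⟨a, ha0, ha⟩ := main h hB b.ne_zero hb'
    refine ⟨Units.mk0 a ha0, ?_⟩
    rw [hV]
    simpa using ha

end REC
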